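import Pool.Agent.Strip051.Box.C2
import Pool.Agent.Strip051.Box.S30
import Pool.Agent.Strip051.LB.Fc.F2
import Pool.Agent.Strip051.LB.Fd.F2

/-! # LINE tight chart ChB00U_pm_102z -/

namespace Pool.Agent.Strip051.LB.ChB00U_pm_102z

open Pool.Agent.Strip051.Box Pool.Agent.Strip051.Box2

open Pool.Agent.Strip051.LB.Fd Pool.Agent.Strip051.LB.Fd.F2 Pool.Agent.Strip051.LB.Fc Pool.Agent.Strip051.LB.Fc.F2 Pool.Agent.Strip051.LB.Fn Pool.Agent.Strip051.LB.Fn.F2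

/-- coordinates of a point of the box -/
def In (b : Bx) (E : Pt) (x1 x2 : ℝ) : Prop :=
  (S : ℝ) * x1 = ((b.p1 : ℝ) - b.n1) + b.q1 * E.e1 ∧ (S : ℝ) * x2 = ((b.p2 : ℝ) - b.n2) + b.q2 * E.e2

variable {b : Bx} {E : Pt} {x1 x2 : ℝ}

def t0 (b : Bx) : TM := X1 b
noncomputable def v0 (x1 _x2 : ℝ) : ℝ := x1
theorem h0 (h : In b E x1 x2) : Enc S E (t0 b) (v0 x1 x2) := enc_X1 h.1

def t1 (b : Bx) : TM := X2 b
noncomputable def v1 (_x1 x2 : ℝ) : ℝ := x2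
theorem h1 (h : In b E x1 x2) : Enc S E (t1 b) (v1 x1 x2) := enc_X2 h.2

def t2 (_b : Bx) : TM := tconst 1859775393 0 1
noncomputable def v2 (_x1 _x2 : ℝ) : ℝ := Real.sqrt ((3 : ℕ) : ℝ)
theorem h2 (_h : In b E x1 x2) : Enc S E (t2 b) (v2 x1 x2) := enc_sqrtn E (by decide) (by decide)

def t3 (b : Bx) : TM := tscale 1 2 (t2 b)
noncomputable def v3 (x1 x2 : ℝ) : ℝ := ((1 : ℕ) : ℝ) / ((2 : ℕ) : ℝ) * v2 x1 x2
theorem h3 (h : In b E x1 x2) : Enc S E (t3 b) (v3 x1 x2) := enc_scale 1 (by norm_num) (h2 h)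

def t4 (b : Bx) : TM := tmul S (t0 b) (t1 b)
noncomputable def v4 (x1 x2 : ℝ) : ℝ := v0 x1 x2 * v1 x1 x2
theorem h4 (h : In b E x1 x2) : Enc S E (t4 b) (v4 x1 x2) := enc_mul hS (h0 h) (h1 h)

def t5 (b : Bx) : TM := tsub (t3 b) (t4 b)
noncomputable def v5 (x1 x2 : ℝ) : ℝ := v3 x1 x2 - v4 x1 x2
theorem h5 (h : In b E x1 x2) : Enc S E (t5 b) (v5 x1 x2) := enc_sub (h3 h) (h4 h)

def t6 (_b : Bx) : TM := tconst (Nat.mul 1 S) 0 0
noncomputable def v6 (_x1 _x2 : ℝ) : ℝ := ((1 : ℕ) : ℝ)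
theorem h6 (_h : In b E x1 x2) : Enc S E (t6 b) (v6 x1 x2) := enc_nc E 1

def t7 (b : Bx) : TM := tsub (t6 b) (t1 b)
noncomputable def v7 (x1 x2 : ℝ) : ℝ := v6 x1 x2 - v1 x1 x2
theorem h7 (h : In b E x1 x2) : Enc S E (t7 b) (v7 x1 x2) := enc_sub (h6 h) (h1 h)

def t8 (b : Bx) : TM := tmul S (t0 b) (t7 b)
noncomputable def v8 (x1 x2 : ℝ) : ℝ := v0 x1 x2 * v7 x1 x2
theorem h8 (h : In b E x1 x2) : Enc S E (t8 b) (v8 x1 x2) := enc_mul hS (h0 h) (h7 h)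

def t9 (b : Bx) : TM := tadd (t3 b) (t8 b)
noncomputable def v9 (x1 x2 : ℝ) : ℝ := v3 x1 x2 + v8 x1 x2
theorem h9 (h : In b E x1 x2) : Enc S E (t9 b) (v9 x1 x2) := enc_add (h3 h) (h8 h)

def t10 (b : Bx) : TM := tsq S (t5 b)
noncomputable def v10 (x1 x2 : ℝ) : ℝ := (v5 x1 x2) ^ 2
theorem h10 (h : In b E x1 x2) : Enc S E (t10 b) (v10 x1 x2) := enc_sq hS (h5 h)

def t11 (b : Bx) : TM := tsub (t6 b) (t10 b)
noncomputable def v11 (x1 x2 : ℝ) : ℝ := v6 x1 x2 - v10 x1 x2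
theorem h11 (h : In b E x1 x2) : Enc S E (t11 b) (v11 x1 x2) := enc_sub (h6 h) (h10 h)

def t12 (b : Bx) : TM := tsqrtg S (t11 b)
noncomputable def v12 (x1 x2 : ℝ) : ℝ := Real.sqrt (v11 x1 x2)
theorem h12 (h : In b E x1 x2) : Enc S E (t12 b) (v12 x1 x2) := enc_sqrtg hS (h11 h)

def t14 (_b : Bx) : TM := tconst (Nat.div (Nat.mul 1 S) 2) 0 1
noncomputable def v14 (_x1 _x2 : ℝ) : ℝ := ((1 : ℕ) : ℝ) / ((2 : ℕ) : ℝ)
theorem h14 (_h : In b E x1 x2) : Enc S E (t14 b) (v14 x1 x2) := enc_rat E 1 (by norm_num)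

def t16 (b : Bx) : TM := tscale 1 2 (t12 b)
noncomputable def v16 (x1 x2 : ℝ) : ℝ := ((1 : ℕ) : ℝ) / ((2 : ℕ) : ℝ) * v12 x1 x2
theorem h16 (h : In b E x1 x2) : Enc S E (t16 b) (v16 x1 x2) := enc_scale 1 (by norm_num) (h12 h)

def t18 (b : Bx) : TM := tmul S (t5 b) (t3 b)
noncomputable def v18 (x1 x2 : ℝ) : ℝ := v5 x1 x2 * v3 x1 x2
theorem h18 (h : In b E x1 x2) : Enc S E (t18 b) (v18 x1 x2) := enc_mul hS (h5 h) (h3 h)

def t20 (b : Bx) : TM := tscale 1 2 (t5 b)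
noncomputable def v20 (x1 x2 : ℝ) : ℝ := ((1 : ℕ) : ℝ) / ((2 : ℕ) : ℝ) * v5 x1 x2
theorem h20 (h : In b E x1 x2) : Enc S E (t20 b) (v20 x1 x2) := enc_scale 1 (by norm_num) (h5 h)

def t22 (b : Bx) : TM := tmul S (t12 b) (t3 b)
noncomputable def v22 (x1 x2 : ℝ) : ℝ := v12 x1 x2 * v3 x1 x2
theorem h22 (h : In b E x1 x2) : Enc S E (t22 b) (v22 x1 x2) := enc_mul hS (h12 h) (h3 h)

def t24 (b : Bx) : TM := tsub (t16 b) (t18 b)
noncomputable def v24 (x1 x2 : ℝ) : ℝ := v16 x1 x2 - v18 x1 x2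
theorem h24 (h : In b E x1 x2) : Enc S E (t24 b) (v24 x1 x2) := enc_sub (h16 h) (h18 h)

def t25 (b : Bx) : TM := tadd (t20 b) (t22 b)
noncomputable def v25 (x1 x2 : ℝ) : ℝ := v20 x1 x2 + v22 x1 x2
theorem h25 (h : In b E x1 x2) : Enc S E (t25 b) (v25 x1 x2) := enc_add (h20 h) (h22 h)

def t27 (b : Bx) : TM := tsq S (t9 b)
noncomputable def v27 (x1 x2 : ℝ) : ℝ := (v9 x1 x2) ^ 2
theorem h27 (h : In b E x1 x2) : Enc S E (t27 b) (v27 x1 x2) := enc_sq hS (h9 h)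

def t28 (b : Bx) : TM := tsub (t6 b) (t27 b)
noncomputable def v28 (x1 x2 : ℝ) : ℝ := v6 x1 x2 - v27 x1 x2
theorem h28 (h : In b E x1 x2) : Enc S E (t28 b) (v28 x1 x2) := enc_sub (h6 h) (h27 h)

def t29 (b : Bx) : TM := tsqrtg S (t28 b)
noncomputable def v29 (x1 x2 : ℝ) : ℝ := Real.sqrt (v28 x1 x2)
theorem h29 (h : In b E x1 x2) : Enc S E (t29 b) (v29 x1 x2) := enc_sqrtg hS (h28 h)

def t30 (b : Bx) : TM := tsub (t18 b) (t16 b)
noncomputable def v30 (x1 x2 : ℝ) : ℝ := v18 x1 x2 - v16 x1 x2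
theorem h30 (h : In b E x1 x2) : Enc S E (t30 b) (v30 x1 x2) := enc_sub (h18 h) (h16 h)

def t31 (b : Bx) : TM := tneg (t29 b)
noncomputable def v31 (x1 x2 : ℝ) : ℝ := -(v29 x1 x2)
theorem h31 (h : In b E x1 x2) : Enc S E (t31 b) (v31 x1 x2) := enc_neg (h29 h)

def t32 (b : Bx) : TM := tsub (t31 b) (t12 b)
noncomputable def v32 (x1 x2 : ℝ) : ℝ := v31 x1 x2 - v12 x1 x2
theorem h32 (h : In b E x1 x2) : Enc S E (t32 b) (v32 x1 x2) := enc_sub (h31 h) (h12 h)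

def t33 (b : Bx) : TM := tsub (t9 b) (t5 b)
noncomputable def v33 (x1 x2 : ℝ) : ℝ := v9 x1 x2 - v5 x1 x2
theorem h33 (h : In b E x1 x2) : Enc S E (t33 b) (v33 x1 x2) := enc_sub (h9 h) (h5 h)

def t35 (b : Bx) : TM := tnat 2 (t12 b)
noncomputable def v35 (x1 x2 : ℝ) : ℝ := ((2 : ℕ) : ℝ) * v12 x1 x2
theorem h35 (h : In b E x1 x2) : Enc S E (t35 b) (v35 x1 x2) := enc_nat 2 (h12 h)

def t36 (b : Bx) : TM := tadd (t6 b) (t35 b)
noncomputable def v36 (x1 x2 : ℝ) : ℝ := v6 x1 x2 + v35 x1 x2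
theorem h36 (h : In b E x1 x2) : Enc S E (t36 b) (v36 x1 x2) := enc_add (h6 h) (h35 h)

def t37 (b : Bx) : TM := tmul S (t2 b) (t5 b)
noncomputable def v37 (x1 x2 : ℝ) : ℝ := v2 x1 x2 * v5 x1 x2
theorem h37 (h : In b E x1 x2) : Enc S E (t37 b) (v37 x1 x2) := enc_mul hS (h2 h) (h5 h)

def t38 (b : Bx) : TM := tsub (t37 b) (t12 b)
noncomputable def v38 (x1 x2 : ℝ) : ℝ := v37 x1 x2 - v12 x1 x2
theorem h38 (h : In b E x1 x2) : Enc S E (t38 b) (v38 x1 x2) := enc_sub (h37 h) (h12 h)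

def t39 (b : Bx) : TM := tmul S (t36 b) (t38 b)
noncomputable def v39 (x1 x2 : ℝ) : ℝ := v36 x1 x2 * v38 x1 x2
theorem h39 (h : In b E x1 x2) : Enc S E (t39 b) (v39 x1 x2) := enc_mul hS (h36 h) (h38 h)

def t40 (b : Bx) : TM := tadd (t6 b) (t37 b)
noncomputable def v40 (x1 x2 : ℝ) : ℝ := v6 x1 x2 + v37 x1 x2
theorem h40 (h : In b E x1 x2) : Enc S E (t40 b) (v40 x1 x2) := enc_add (h6 h) (h37 h)

def t41 (b : Bx) : TM := tsub (t40 b) (t12 b)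
noncomputable def v41 (x1 x2 : ℝ) : ℝ := v40 x1 x2 - v12 x1 x2
theorem h41 (h : In b E x1 x2) : Enc S E (t41 b) (v41 x1 x2) := enc_sub (h40 h) (h12 h)

def t42 (b : Bx) : TM := tnat 2 (t41 b)
noncomputable def v42 (x1 x2 : ℝ) : ℝ := ((2 : ℕ) : ℝ) * v41 x1 x2
theorem h42 (h : In b E x1 x2) : Enc S E (t42 b) (v42 x1 x2) := enc_nat 2 (h41 h)

def t43 (b : Bx) : TM := tinv S (t42 b)
noncomputable def v43 (x1 x2 : ℝ) : ℝ := (v42 x1 x2)⁻¹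
theorem h43 (h : In b E x1 x2) : Enc S E (t43 b) (v43 x1 x2) := enc_inv hS (h42 h)

def t44 (b : Bx) : TM := tmul S (t39 b) (t43 b)
noncomputable def v44 (x1 x2 : ℝ) : ℝ := v39 x1 x2 * v43 x1 x2
theorem h44 (h : In b E x1 x2) : Enc S E (t44 b) (v44 x1 x2) := enc_mul hS (h39 h) (h43 h)

def t45 (b : Bx) : TM := tsq S (t32 b)
noncomputable def v45 (x1 x2 : ℝ) : ℝ := (v32 x1 x2) ^ 2
theorem h45 (h : In b E x1 x2) : Enc S E (t45 b) (v45 x1 x2) := enc_sq hS (h32 h)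

def t46 (b : Bx) : TM := tsq S (t33 b)
noncomputable def v46 (x1 x2 : ℝ) : ℝ := (v33 x1 x2) ^ 2
theorem h46 (h : In b E x1 x2) : Enc S E (t46 b) (v46 x1 x2) := enc_sq hS (h33 h)

def t47 (b : Bx) : TM := tadd (t45 b) (t46 b)
noncomputable def v47 (x1 x2 : ℝ) : ℝ := v45 x1 x2 + v46 x1 x2
theorem h47 (h : In b E x1 x2) : Enc S E (t47 b) (v47 x1 x2) := enc_add (h45 h) (h46 h)

def t52 (b : Bx) : TM := tadd (t9 b) (t25 b)
noncomputable def v52 (x1 x2 : ℝ) : ℝ := v9 x1 x2 + v25 x1 x2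
theorem h52 (h : In b E x1 x2) : Enc S E (t52 b) (v52 x1 x2) := enc_add (h9 h) (h25 h)

def t55 (b : Bx) : TM := tadd (t29 b) (t30 b)
noncomputable def v55 (x1 x2 : ℝ) : ℝ := v29 x1 x2 + v30 x1 x2
theorem h55 (h : In b E x1 x2) : Enc S E (t55 b) (v55 x1 x2) := enc_add (h29 h) (h30 h)

def t56 (b : Bx) : TM := tinv S (t55 b)
noncomputable def v56 (x1 x2 : ℝ) : ℝ := (v55 x1 x2)⁻¹
theorem h56 (h : In b E x1 x2) : Enc S E (t56 b) (v56 x1 x2) := enc_inv hS (h55 h)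

def t57 (b : Bx) : TM := tmul S (t52 b) (t56 b)
noncomputable def v57 (x1 x2 : ℝ) : ℝ := v52 x1 x2 * v56 x1 x2
theorem h57 (h : In b E x1 x2) : Enc S E (t57 b) (v57 x1 x2) := enc_mul hS (h52 h) (h56 h)

def t59 (b : Bx) : TM := tsub (t24 b) (t12 b)
noncomputable def v59 (x1 x2 : ℝ) : ℝ := v24 x1 x2 - v12 x1 x2
theorem h59 (h : In b E x1 x2) : Enc S E (t59 b) (v59 x1 x2) := enc_sub (h24 h) (h12 h)

def t61 (b : Bx) : TM := tadd (t32 b) (t59 b)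
noncomputable def v61 (x1 x2 : ℝ) : ℝ := v32 x1 x2 + v59 x1 x2
theorem h61 (h : In b E x1 x2) : Enc S E (t61 b) (v61 x1 x2) := enc_add (h32 h) (h59 h)

def t62 (b : Bx) : TM := tmul S (t57 b) (t61 b)
noncomputable def v62 (x1 x2 : ℝ) : ℝ := v57 x1 x2 * v61 x1 x2
theorem h62 (h : In b E x1 x2) : Enc S E (t62 b) (v62 x1 x2) := enc_mul hS (h57 h) (h61 h)

def t63 (b : Bx) : TM := tneg (t62 b)
noncomputable def v63 (x1 x2 : ℝ) : ℝ := -(v62 x1 x2)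
theorem h63 (h : In b E x1 x2) : Enc S E (t63 b) (v63 x1 x2) := enc_neg (h62 h)

def t64 (b : Bx) : TM := tsub (t25 b) (t5 b)
noncomputable def v64 (x1 x2 : ℝ) : ℝ := v25 x1 x2 - v5 x1 x2
theorem h64 (h : In b E x1 x2) : Enc S E (t64 b) (v64 x1 x2) := enc_sub (h25 h) (h5 h)

def t66 (b : Bx) : TM := tadd (t33 b) (t64 b)
noncomputable def v66 (x1 x2 : ℝ) : ℝ := v33 x1 x2 + v64 x1 x2
theorem h66 (h : In b E x1 x2) : Enc S E (t66 b) (v66 x1 x2) := enc_add (h33 h) (h64 h)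

def t69 (b : Bx) : TM := tsub (t63 b) (t66 b)
noncomputable def v69 (x1 x2 : ℝ) : ℝ := v63 x1 x2 - v66 x1 x2
theorem h69 (h : In b E x1 x2) : Enc S E (t69 b) (v69 x1 x2) := enc_sub (h63 h) (h66 h)

def t71 (b : Bx) : TM := tadd (t12 b) (t29 b)
noncomputable def v71 (x1 x2 : ℝ) : ℝ := v12 x1 x2 + v29 x1 x2
theorem h71 (h : In b E x1 x2) : Enc S E (t71 b) (v71 x1 x2) := enc_add (h12 h) (h29 h)

def t72 (b : Bx) : TM := tsub (t6 b) (t46 b)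
noncomputable def v72 (x1 x2 : ℝ) : ℝ := v6 x1 x2 - v46 x1 x2
theorem h72 (h : In b E x1 x2) : Enc S E (t72 b) (v72 x1 x2) := enc_sub (h6 h) (h46 h)

def t73 (b : Bx) : TM := tsqrt S (t72 b)
noncomputable def v73 (x1 x2 : ℝ) : ℝ := Real.sqrt (v72 x1 x2)
theorem h73 (h : In b E x1 x2) : Enc S E (t73 b) (v73 x1 x2) := enc_sqrt hS (h72 h)

def t74 (b : Bx) : TM := tadd (t18 b) (t16 b)
noncomputable def v74 (x1 x2 : ℝ) : ℝ := v18 x1 x2 + v16 x1 x2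
theorem h74 (h : In b E x1 x2) : Enc S E (t74 b) (v74 x1 x2) := enc_add (h18 h) (h16 h)

def t75 (b : Bx) : TM := tmul S (t2 b) (t33 b)
noncomputable def v75 (x1 x2 : ℝ) : ℝ := v2 x1 x2 * v33 x1 x2
theorem h75 (h : In b E x1 x2) : Enc S E (t75 b) (v75 x1 x2) := enc_mul hS (h2 h) (h33 h)

def t77 (b : Bx) : TM := tadd (t6 b) (t73 b)
noncomputable def v77 (x1 x2 : ℝ) : ℝ := v6 x1 x2 + v73 x1 x2
theorem h77 (h : In b E x1 x2) : Enc S E (t77 b) (v77 x1 x2) := enc_add (h6 h) (h73 h)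

def t79 (b : Bx) : TM := tsub (t77 b) (t75 b)
noncomputable def v79 (x1 x2 : ℝ) : ℝ := v77 x1 x2 - v75 x1 x2
theorem h79 (h : In b E x1 x2) : Enc S E (t79 b) (v79 x1 x2) := enc_sub (h77 h) (h75 h)

def t80 (b : Bx) : TM := tinv S (t79 b)
noncomputable def v80 (x1 x2 : ℝ) : ℝ := (v79 x1 x2)⁻¹
theorem h80 (h : In b E x1 x2) : Enc S E (t80 b) (v80 x1 x2) := enc_inv hS (h79 h)

def t83 (b : Bx) : TM := tadd (t73 b) (t74 b)
noncomputable def v83 (x1 x2 : ℝ) : ℝ := v73 x1 x2 + v74 x1 x2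
theorem h83 (h : In b E x1 x2) : Enc S E (t83 b) (v83 x1 x2) := enc_add (h73 h) (h74 h)

def t84 (b : Bx) : TM := tinv S (t83 b)
noncomputable def v84 (x1 x2 : ℝ) : ℝ := (v83 x1 x2)⁻¹
theorem h84 (h : In b E x1 x2) : Enc S E (t84 b) (v84 x1 x2) := enc_inv hS (h83 h)

def t85 (b : Bx) : TM := tmul S (t66 b) (t84 b)
noncomputable def v85 (x1 x2 : ℝ) : ℝ := v66 x1 x2 * v84 x1 x2
theorem h85 (h : In b E x1 x2) : Enc S E (t85 b) (v85 x1 x2) := enc_mul hS (h66 h) (h84 h)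

def t86 (b : Bx) : TM := tmul S (t2 b) (t64 b)
noncomputable def v86 (x1 x2 : ℝ) : ℝ := v2 x1 x2 * v64 x1 x2
theorem h86 (h : In b E x1 x2) : Enc S E (t86 b) (v86 x1 x2) := enc_mul hS (h2 h) (h64 h)

def t88 (b : Bx) : TM := tsub (t74 b) (t86 b)
noncomputable def v88 (x1 x2 : ℝ) : ℝ := v74 x1 x2 - v86 x1 x2
theorem h88 (h : In b E x1 x2) : Enc S E (t88 b) (v88 x1 x2) := enc_sub (h74 h) (h86 h)

def t89 (b : Bx) : TM := tadd (t85 b) (t2 b)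
noncomputable def v89 (x1 x2 : ℝ) : ℝ := v85 x1 x2 + v2 x1 x2
theorem h89 (h : In b E x1 x2) : Enc S E (t89 b) (v89 x1 x2) := enc_add (h85 h) (h2 h)

def t90 (b : Bx) : TM := tadd (t6 b) (t74 b)
noncomputable def v90 (x1 x2 : ℝ) : ℝ := v6 x1 x2 + v74 x1 x2
theorem h90 (h : In b E x1 x2) : Enc S E (t90 b) (v90 x1 x2) := enc_add (h6 h) (h74 h)

def t91 (b : Bx) : TM := tmul S (t88 b) (t90 b)
noncomputable def v91 (x1 x2 : ℝ) : ℝ := v88 x1 x2 * v90 x1 x2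
theorem h91 (h : In b E x1 x2) : Enc S E (t91 b) (v91 x1 x2) := enc_mul hS (h88 h) (h90 h)

def t92 (b : Bx) : TM := tmul S (t89 b) (t77 b)
noncomputable def v92 (x1 x2 : ℝ) : ℝ := v89 x1 x2 * v77 x1 x2
theorem h92 (h : In b E x1 x2) : Enc S E (t92 b) (v92 x1 x2) := enc_mul hS (h89 h) (h77 h)

def t93 (b : Bx) : TM := tmul S (t88 b) (t85 b)
noncomputable def v93 (x1 x2 : ℝ) : ℝ := v88 x1 x2 * v85 x1 x2
theorem h93 (h : In b E x1 x2) : Enc S E (t93 b) (v93 x1 x2) := enc_mul hS (h88 h) (h85 h)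

def t94 (b : Bx) : TM := tadd (t92 b) (t93 b)
noncomputable def v94 (x1 x2 : ℝ) : ℝ := v92 x1 x2 + v93 x1 x2
theorem h94 (h : In b E x1 x2) : Enc S E (t94 b) (v94 x1 x2) := enc_add (h92 h) (h93 h)

def t95 (b : Bx) : TM := tsub (t90 b) (t86 b)
noncomputable def v95 (x1 x2 : ℝ) : ℝ := v90 x1 x2 - v86 x1 x2
theorem h95 (h : In b E x1 x2) : Enc S E (t95 b) (v95 x1 x2) := enc_sub (h90 h) (h86 h)

def t96 (b : Bx) : TM := tinv S (t95 b)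
noncomputable def v96 (x1 x2 : ℝ) : ℝ := (v95 x1 x2)⁻¹
theorem h96 (h : In b E x1 x2) : Enc S E (t96 b) (v96 x1 x2) := enc_inv hS (h95 h)

def t97 (b : Bx) : TM := tmul S (t80 b) (t96 b)
noncomputable def v97 (x1 x2 : ℝ) : ℝ := v80 x1 x2 * v96 x1 x2
theorem h97 (h : In b E x1 x2) : Enc S E (t97 b) (v97 x1 x2) := enc_mul hS (h80 h) (h96 h)

def t98 (b : Bx) : TM := tmul S (t89 b) (t97 b)
noncomputable def v98 (x1 x2 : ℝ) : ℝ := v89 x1 x2 * v97 x1 x2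
theorem h98 (h : In b E x1 x2) : Enc S E (t98 b) (v98 x1 x2) := enc_mul hS (h89 h) (h97 h)

def t101 (b : Bx) : TM := tmul S (t94 b) (t80 b)
noncomputable def v101 (x1 x2 : ℝ) : ℝ := v94 x1 x2 * v80 x1 x2
theorem h101 (h : In b E x1 x2) : Enc S E (t101 b) (v101 x1 x2) := enc_mul hS (h94 h) (h80 h)

def t102 (b : Bx) : TM := tmul S (t91 b) (t98 b)
noncomputable def v102 (x1 x2 : ℝ) : ℝ := v91 x1 x2 * v98 x1 x2
theorem h102 (h : In b E x1 x2) : Enc S E (t102 b) (v102 x1 x2) := enc_mul hS (h91 h) (h98 h)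

def t104 (b : Bx) : TM := tsub (t101 b) (t102 b)
noncomputable def v104 (x1 x2 : ℝ) : ℝ := v101 x1 x2 - v102 x1 x2
theorem h104 (h : In b E x1 x2) : Enc S E (t104 b) (v104 x1 x2) := enc_sub (h101 h) (h102 h)

def t105 (b : Bx) : TM := sw_t (t33 b)
noncomputable def v105 (x1 x2 : ℝ) : ℝ := sw_v (v33 x1 x2)
theorem h105 (h : In b E x1 x2) : Enc S E (t105 b) (v105 x1 x2) := sw_enc (h33 h)

def t106 (b : Bx) : TM := tsub (t2 b) (t33 b)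
noncomputable def v106 (x1 x2 : ℝ) : ℝ := v2 x1 x2 - v33 x1 x2
theorem h106 (h : In b E x1 x2) : Enc S E (t106 b) (v106 x1 x2) := enc_sub (h2 h) (h33 h)

def t107 (b : Bx) : TM := tadd (t105 b) (t14 b)
noncomputable def v107 (x1 x2 : ℝ) : ℝ := v105 x1 x2 + v14 x1 x2
theorem h107 (h : In b E x1 x2) : Enc S E (t107 b) (v107 x1 x2) := enc_add (h105 h) (h14 h)

def t108 (b : Bx) : TM := tinv S (t107 b)
noncomputable def v108 (x1 x2 : ℝ) : ℝ := (v107 x1 x2)⁻¹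
theorem h108 (h : In b E x1 x2) : Enc S E (t108 b) (v108 x1 x2) := enc_inv hS (h107 h)

def t109 (b : Bx) : TM := tmul S (t106 b) (t108 b)
noncomputable def v109 (x1 x2 : ℝ) : ℝ := v106 x1 x2 * v108 x1 x2
theorem h109 (h : In b E x1 x2) : Enc S E (t109 b) (v109 x1 x2) := enc_mul hS (h106 h) (h108 h)

def t110 (b : Bx) : TM := tinv S (t77 b)
noncomputable def v110 (x1 x2 : ℝ) : ℝ := (v77 x1 x2)⁻¹
theorem h110 (h : In b E x1 x2) : Enc S E (t110 b) (v110 x1 x2) := enc_inv hS (h77 h)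

def t111 (b : Bx) : TM := tmul S (t33 b) (t110 b)
noncomputable def v111 (x1 x2 : ℝ) : ℝ := v33 x1 x2 * v110 x1 x2
theorem h111 (h : In b E x1 x2) : Enc S E (t111 b) (v111 x1 x2) := enc_mul hS (h33 h) (h110 h)

def t112 (b : Bx) : TM := tadd (t109 b) (t111 b)
noncomputable def v112 (x1 x2 : ℝ) : ℝ := v109 x1 x2 + v111 x1 x2
theorem h112 (h : In b E x1 x2) : Enc S E (t112 b) (v112 x1 x2) := enc_add (h109 h) (h111 h)

def t113 (b : Bx) : TM := tscale 1 2 (t112 b)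
noncomputable def v113 (x1 x2 : ℝ) : ℝ := ((1 : ℕ) : ℝ) / ((2 : ℕ) : ℝ) * v112 x1 x2
theorem h113 (h : In b E x1 x2) : Enc S E (t113 b) (v113 x1 x2) := enc_scale 1 (by norm_num) (h112 h)

def t114 (b : Bx) : TM := tscale 1 2 (t1 b)
noncomputable def v114 (x1 x2 : ℝ) : ℝ := ((1 : ℕ) : ℝ) / ((2 : ℕ) : ℝ) * v1 x1 x2
theorem h114 (h : In b E x1 x2) : Enc S E (t114 b) (v114 x1 x2) := enc_scale 1 (by norm_num) (h1 h)

def t115 (b : Bx) : TM := tmul S (t3 b) (t1 b)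
noncomputable def v115 (x1 x2 : ℝ) : ℝ := v3 x1 x2 * v1 x1 x2
theorem h115 (h : In b E x1 x2) : Enc S E (t115 b) (v115 x1 x2) := enc_mul hS (h3 h) (h1 h)

def t116 (b : Bx) : TM := tadd (t5 b) (t3 b)
noncomputable def v116 (x1 x2 : ℝ) : ℝ := v5 x1 x2 + v3 x1 x2
theorem h116 (h : In b E x1 x2) : Enc S E (t116 b) (v116 x1 x2) := enc_add (h5 h) (h3 h)

def t117 (b : Bx) : TM := tmul S (t115 b) (t116 b)
noncomputable def v117 (x1 x2 : ℝ) : ℝ := v115 x1 x2 * v116 x1 x2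
theorem h117 (h : In b E x1 x2) : Enc S E (t117 b) (v117 x1 x2) := enc_mul hS (h115 h) (h116 h)

def t118 (b : Bx) : TM := tadd (t12 b) (t14 b)
noncomputable def v118 (x1 x2 : ℝ) : ℝ := v12 x1 x2 + v14 x1 x2
theorem h118 (h : In b E x1 x2) : Enc S E (t118 b) (v118 x1 x2) := enc_add (h12 h) (h14 h)

def t119 (b : Bx) : TM := tinv S (t118 b)
noncomputable def v119 (x1 x2 : ℝ) : ℝ := (v118 x1 x2)⁻¹
theorem h119 (h : In b E x1 x2) : Enc S E (t119 b) (v119 x1 x2) := enc_inv hS (h118 h)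

def t120 (b : Bx) : TM := tmul S (t117 b) (t119 b)
noncomputable def v120 (x1 x2 : ℝ) : ℝ := v117 x1 x2 * v119 x1 x2
theorem h120 (h : In b E x1 x2) : Enc S E (t120 b) (v120 x1 x2) := enc_mul hS (h117 h) (h119 h)

def t121 (b : Bx) : TM := tadd (t114 b) (t120 b)
noncomputable def v121 (x1 x2 : ℝ) : ℝ := v114 x1 x2 + v120 x1 x2
theorem h121 (h : In b E x1 x2) : Enc S E (t121 b) (v121 x1 x2) := enc_add (h114 h) (h120 h)

def t122 (b : Bx) : TM := tsub (t121 b) (t6 b)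
noncomputable def v122 (x1 x2 : ℝ) : ℝ := v121 x1 x2 - v6 x1 x2
theorem h122 (h : In b E x1 x2) : Enc S E (t122 b) (v122 x1 x2) := enc_sub (h121 h) (h6 h)

def t123 (b : Bx) : TM := tmul S (t122 b) (t69 b)
noncomputable def v123 (x1 x2 : ℝ) : ℝ := v122 x1 x2 * v69 x1 x2
theorem h123 (h : In b E x1 x2) : Enc S E (t123 b) (v123 x1 x2) := enc_mul hS (h122 h) (h69 h)

def t124 (b : Bx) : TM := tadd (t71 b) (t73 b)
noncomputable def v124 (x1 x2 : ℝ) : ℝ := v71 x1 x2 + v73 x1 x2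
theorem h124 (h : In b E x1 x2) : Enc S E (t124 b) (v124 x1 x2) := enc_add (h71 h) (h73 h)

def t125 (b : Bx) : TM := tinv S (t124 b)
noncomputable def v125 (x1 x2 : ℝ) : ℝ := (v124 x1 x2)⁻¹
theorem h125 (h : In b E x1 x2) : Enc S E (t125 b) (v125 x1 x2) := enc_inv hS (h124 h)

def t126 (b : Bx) : TM := tmul S (t123 b) (t125 b)
noncomputable def v126 (x1 x2 : ℝ) : ℝ := v123 x1 x2 * v125 x1 x2
theorem h126 (h : In b E x1 x2) : Enc S E (t126 b) (v126 x1 x2) := enc_mul hS (h123 h) (h125 h)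

def t127 (b : Bx) : TM := rho0_t (t33 b)
noncomputable def v127 (x1 x2 : ℝ) : ℝ := rho0_v (v33 x1 x2)
theorem h127 (h : In b E x1 x2) : Enc S E (t127 b) (v127 x1 x2) := rho0_enc (h33 h)

def t128 (b : Bx) : TM := sgq0_t (t33 b)
noncomputable def v128 (x1 x2 : ℝ) : ℝ := sgq0_v (v33 x1 x2)
theorem h128 (h : In b E x1 x2) : Enc S E (t128 b) (v128 x1 x2) := sgq0_enc (h33 h)

def t129 (b : Bx) : TM := tsub (t126 b) (t113 b)
noncomputable def v129 (x1 x2 : ℝ) : ℝ := v126 x1 x2 - v113 x1 x2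
theorem h129 (h : In b E x1 x2) : Enc S E (t129 b) (v129 x1 x2) := enc_sub (h126 h) (h113 h)

def t130 (b : Bx) : TM := tlam S (t113 b) (t126 b)
noncomputable def v130 (x1 x2 : ℝ) : ℝ := min (max (v113 x1 x2 * (v126 x1 x2)⁻¹) 0) 1
theorem h130 (h : In b E x1 x2) : Enc S E (t130 b) (v130 x1 x2) := enc_lam hS (h113 h) (h126 h)

def t131 (b : Bx) : TM := tsub (t127 b) (t128 b)
noncomputable def v131 (x1 x2 : ℝ) : ℝ := v127 x1 x2 - v128 x1 x2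
theorem h131 (h : In b E x1 x2) : Enc S E (t131 b) (v131 x1 x2) := enc_sub (h127 h) (h128 h)

def t132 (b : Bx) : TM := tmul S (t130 b) (t131 b)
noncomputable def v132 (x1 x2 : ℝ) : ℝ := v130 x1 x2 * v131 x1 x2
theorem h132 (h : In b E x1 x2) : Enc S E (t132 b) (v132 x1 x2) := enc_mul hS (h130 h) (h131 h)

def t133 (b : Bx) : TM := tadd (t128 b) (t132 b)
noncomputable def v133 (x1 x2 : ℝ) : ℝ := v128 x1 x2 + v132 x1 x2
theorem h133 (h : In b E x1 x2) : Enc S E (t133 b) (v133 x1 x2) := enc_add (h128 h) (h132 h)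

def t134 (b : Bx) : TM := tcase (t129 b) (t127 b) (t133 b)
noncomputable def v134 (x1 x2 : ℝ) : ℝ := if v129 x1 x2 ≤ 0 then v127 x1 x2 else v133 x1 x2
theorem h134 (h : In b E x1 x2) : Enc S E (t134 b) (v134 x1 x2) := enc_case hS (h129 h) (h127 h) (h133 h)

def t135 (b : Bx) : TM := f2m_t (t33 b)
noncomputable def v135 (x1 x2 : ℝ) : ℝ := f2m_v (v33 x1 x2)
theorem h135 (h : In b E x1 x2) : Enc S E (t135 b) (v135 x1 x2) := f2m_enc (h33 h)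

def t136 (b : Bx) : TM := tsub (t135 b) (t71 b)
noncomputable def v136 (x1 x2 : ℝ) : ℝ := v135 x1 x2 - v71 x1 x2
theorem h136 (h : In b E x1 x2) : Enc S E (t136 b) (v136 x1 x2) := enc_sub (h135 h) (h71 h)

def t142 (b : Bx) : TM := tmul S (t69 b) (t134 b)
noncomputable def v142 (x1 x2 : ℝ) : ℝ := v69 x1 x2 * v134 x1 x2
theorem h142 (h : In b E x1 x2) : Enc S E (t142 b) (v142 x1 x2) := enc_mul hS (h69 h) (h134 h)

def t143 (b : Bx) : TM := tmul S (t142 b) (t125 b)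
noncomputable def v143 (x1 x2 : ℝ) : ℝ := v142 x1 x2 * v125 x1 x2
theorem h143 (h : In b E x1 x2) : Enc S E (t143 b) (v143 x1 x2) := enc_mul hS (h142 h) (h125 h)

def t144 (b : Bx) : TM := tadd (t104 b) (t143 b)
noncomputable def v144 (x1 x2 : ℝ) : ℝ := v104 x1 x2 + v143 x1 x2
theorem h144 (h : In b E x1 x2) : Enc S E (t144 b) (v144 x1 x2) := enc_add (h104 h) (h143 h)

def t146 (b : Bx) : TM := tmul S (t12 b) (t9 b)
noncomputable def v146 (x1 x2 : ℝ) : ℝ := v12 x1 x2 * v9 x1 x2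
theorem h146 (h : In b E x1 x2) : Enc S E (t146 b) (v146 x1 x2) := enc_mul hS (h12 h) (h9 h)

def t147 (b : Bx) : TM := tmul S (t29 b) (t5 b)
noncomputable def v147 (x1 x2 : ℝ) : ℝ := v29 x1 x2 * v5 x1 x2
theorem h147 (h : In b E x1 x2) : Enc S E (t147 b) (v147 x1 x2) := enc_mul hS (h29 h) (h5 h)

def t149 (b : Bx) : TM := tadd (t146 b) (t147 b)
noncomputable def v149 (x1 x2 : ℝ) : ℝ := v146 x1 x2 + v147 x1 x2
theorem h149 (h : In b E x1 x2) : Enc S E (t149 b) (v149 x1 x2) := enc_add (h146 h) (h147 h)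

def t150 (b : Bx) : TM := tinv S (t2 b)
noncomputable def v150 (x1 x2 : ℝ) : ℝ := (v2 x1 x2)⁻¹
theorem h150 (h : In b E x1 x2) : Enc S E (t150 b) (v150 x1 x2) := enc_inv hS (h2 h)

def t151 (b : Bx) : TM := tmul S (t149 b) (t150 b)
noncomputable def v151 (x1 x2 : ℝ) : ℝ := v149 x1 x2 * v150 x1 x2
theorem h151 (h : In b E x1 x2) : Enc S E (t151 b) (v151 x1 x2) := enc_mul hS (h149 h) (h150 h)

def t152 (b : Bx) : TM := tsub (t151 b) (t14 b)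
noncomputable def v152 (x1 x2 : ℝ) : ℝ := v151 x1 x2 - v14 x1 x2
theorem h152 (h : In b E x1 x2) : Enc S E (t152 b) (v152 x1 x2) := enc_sub (h151 h) (h14 h)

def t156 (b : Bx) : TM := tmul S (t57 b) (t5 b)
noncomputable def v156 (x1 x2 : ℝ) : ℝ := v57 x1 x2 * v5 x1 x2
theorem h156 (h : In b E x1 x2) : Enc S E (t156 b) (v156 x1 x2) := enc_mul hS (h57 h) (h5 h)

def t158 (b : Bx) : TM := tsub (t156 b) (t12 b)
noncomputable def v158 (x1 x2 : ℝ) : ℝ := v156 x1 x2 - v12 x1 x2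
theorem h158 (h : In b E x1 x2) : Enc S E (t158 b) (v158 x1 x2) := enc_sub (h156 h) (h12 h)

def t160 (b : Bx) : TM := tmul S (t158 b) (t150 b)
noncomputable def v160 (x1 x2 : ℝ) : ℝ := v158 x1 x2 * v150 x1 x2
theorem h160 (h : In b E x1 x2) : Enc S E (t160 b) (v160 x1 x2) := enc_mul hS (h158 h) (h150 h)

def t162 (b : Bx) : TM := tsub (t5 b) (t3 b)
noncomputable def v162 (x1 x2 : ℝ) : ℝ := v5 x1 x2 - v3 x1 x2
theorem h162 (h : In b E x1 x2) : Enc S E (t162 b) (v162 x1 x2) := enc_sub (h5 h) (h3 h)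

def t163 (b : Bx) : TM := tsub (t9 b) (t3 b)
noncomputable def v163 (x1 x2 : ℝ) : ℝ := v9 x1 x2 - v3 x1 x2
theorem h163 (h : In b E x1 x2) : Enc S E (t163 b) (v163 x1 x2) := enc_sub (h9 h) (h3 h)

def t164 (b : Bx) : TM := tsub (t144 b) (t57 b)
noncomputable def v164 (x1 x2 : ℝ) : ℝ := v144 x1 x2 - v57 x1 x2
theorem h164 (h : In b E x1 x2) : Enc S E (t164 b) (v164 x1 x2) := enc_sub (h144 h) (h57 h)

def t166 (b : Bx) : TM := tmul S (t162 b) (t57 b)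
noncomputable def v166 (x1 x2 : ℝ) : ℝ := v162 x1 x2 * v57 x1 x2
theorem h166 (h : In b E x1 x2) : Enc S E (t166 b) (v166 x1 x2) := enc_mul hS (h162 h) (h57 h)

def t169 (b : Bx) : TM := tsub (t44 b) (t166 b)
noncomputable def v169 (x1 x2 : ℝ) : ℝ := v44 x1 x2 - v166 x1 x2
theorem h169 (h : In b E x1 x2) : Enc S E (t169 b) (v169 x1 x2) := enc_sub (h44 h) (h166 h)

def t174 (b : Bx) : TM := tsub (t5 b) (t9 b)
noncomputable def v174 (x1 x2 : ℝ) : ℝ := v5 x1 x2 - v9 x1 x2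
theorem h174 (h : In b E x1 x2) : Enc S E (t174 b) (v174 x1 x2) := enc_sub (h5 h) (h9 h)

def t175 (b : Bx) : TM := tsub (t3 b) (t5 b)
noncomputable def v175 (x1 x2 : ℝ) : ℝ := v3 x1 x2 - v5 x1 x2
theorem h175 (h : In b E x1 x2) : Enc S E (t175 b) (v175 x1 x2) := enc_sub (h3 h) (h5 h)

def t176 (b : Bx) : TM := tsub (t3 b) (t9 b)
noncomputable def v176 (x1 x2 : ℝ) : ℝ := v3 x1 x2 - v9 x1 x2
theorem h176 (h : In b E x1 x2) : Enc S E (t176 b) (v176 x1 x2) := enc_sub (h3 h) (h9 h)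

def t177 (b : Bx) : TM := qn_t (t175 b) (t163 b) (t160 b) (t169 b) (t164 b)
noncomputable def v177 (x1 x2 : ℝ) : ℝ := qn_v (v175 x1 x2) (v163 x1 x2) (v160 x1 x2) (v169 x1 x2) (v164 x1 x2)
theorem h177 (h : In b E x1 x2) : Enc S E (t177 b) (v177 x1 x2) := qn_enc (h175 h) (h163 h) (h160 h) (h169 h) (h164 h)

def t178 (b : Bx) : TM := tscale 1 4 (t2 b)
noncomputable def v178 (x1 x2 : ℝ) : ℝ := ((1 : ℕ) : ℝ) / ((4 : ℕ) : ℝ) * v2 x1 x2
theorem h178 (h : In b E x1 x2) : Enc S E (t178 b) (v178 x1 x2) := enc_scale 1 (by norm_num) (h2 h)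

def t180 (b : Bx) : TM := tsub (t178 b) (t5 b)
noncomputable def v180 (x1 x2 : ℝ) : ℝ := v178 x1 x2 - v5 x1 x2
theorem h180 (h : In b E x1 x2) : Enc S E (t180 b) (v180 x1 x2) := enc_sub (h178 h) (h5 h)

def t182 (b : Bx) : TM := tsub (t33 b) (t178 b)
noncomputable def v182 (x1 x2 : ℝ) : ℝ := v33 x1 x2 - v178 x1 x2
theorem h182 (h : In b E x1 x2) : Enc S E (t182 b) (v182 x1 x2) := enc_sub (h33 h) (h178 h)

def t183 (b : Bx) : TM := tscale 3 4 (t2 b)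
noncomputable def v183 (x1 x2 : ℝ) : ℝ := ((3 : ℕ) : ℝ) / ((4 : ℕ) : ℝ) * v2 x1 x2
theorem h183 (h : In b E x1 x2) : Enc S E (t183 b) (v183 x1 x2) := enc_scale 3 (by norm_num) (h2 h)

def t185 (b : Bx) : TM := tsub (t9 b) (t183 b)
noncomputable def v185 (x1 x2 : ℝ) : ℝ := v9 x1 x2 - v183 x1 x2
theorem h185 (h : In b E x1 x2) : Enc S E (t185 b) (v185 x1 x2) := enc_sub (h9 h) (h183 h)

def t186 (b : Bx) : TM := tmul S (t3 b) (t5 b)
noncomputable def v186 (x1 x2 : ℝ) : ℝ := v3 x1 x2 * v5 x1 x2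
theorem h186 (h : In b E x1 x2) : Enc S E (t186 b) (v186 x1 x2) := enc_mul hS (h3 h) (h5 h)

def t187 (b : Bx) : TM := tsub (t16 b) (t186 b)
noncomputable def v187 (x1 x2 : ℝ) : ℝ := v16 x1 x2 - v186 x1 x2
theorem h187 (h : In b E x1 x2) : Enc S E (t187 b) (v187 x1 x2) := enc_sub (h16 h) (h186 h)

def t188 (b : Bx) : TM := tadd (t187 b) (t29 b)
noncomputable def v188 (x1 x2 : ℝ) : ℝ := v187 x1 x2 + v29 x1 x2
theorem h188 (h : In b E x1 x2) : Enc S E (t188 b) (v188 x1 x2) := enc_add (h187 h) (h29 h)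

def t189 (_b : Bx) : TM := tconst (Nat.div (Nat.mul 1 S) 16) 0 1
noncomputable def v189 (_x1 _x2 : ℝ) : ℝ := ((1 : ℕ) : ℝ) / ((16 : ℕ) : ℝ)
theorem h189 (_h : In b E x1 x2) : Enc S E (t189 b) (v189 x1 x2) := enc_rat E 1 (by norm_num)

def t190 (b : Bx) : TM := tsub (t188 b) (t189 b)
noncomputable def v190 (x1 x2 : ℝ) : ℝ := v188 x1 x2 - v189 x1 x2
theorem h190 (h : In b E x1 x2) : Enc S E (t190 b) (v190 x1 x2) := enc_sub (h188 h) (h189 h)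

def t191 (b : Bx) : TM := tneg (t188 b)
noncomputable def v191 (x1 x2 : ℝ) : ℝ := -(v188 x1 x2)
theorem h191 (h : In b E x1 x2) : Enc S E (t191 b) (v191 x1 x2) := enc_neg (h188 h)

def t192 (b : Bx) : TM := tsub (t191 b) (t189 b)
noncomputable def v192 (x1 x2 : ℝ) : ℝ := v191 x1 x2 - v189 x1 x2
theorem h192 (h : In b E x1 x2) : Enc S E (t192 b) (v192 x1 x2) := enc_sub (h191 h) (h189 h)

def t193 (b : Bx) : TM := tsub (t6 b) (t47 b)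
noncomputable def v193 (x1 x2 : ℝ) : ℝ := v6 x1 x2 - v47 x1 x2
theorem h193 (h : In b E x1 x2) : Enc S E (t193 b) (v193 x1 x2) := enc_sub (h6 h) (h47 h)

def t194 (b : Bx) : TM := tadd (t152 b) (t14 b)
noncomputable def v194 (x1 x2 : ℝ) : ℝ := v152 x1 x2 + v14 x1 x2
theorem h194 (h : In b E x1 x2) : Enc S E (t194 b) (v194 x1 x2) := enc_add (h152 h) (h14 h)

def t195 (b : Bx) : TM := tneg (t194 b)
noncomputable def v195 (x1 x2 : ℝ) : ℝ := -(v194 x1 x2)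
theorem h195 (h : In b E x1 x2) : Enc S E (t195 b) (v195 x1 x2) := enc_neg (h194 h)

def t196 (b : Bx) : TM := tsub (t6 b) (t121 b)
noncomputable def v196 (x1 x2 : ℝ) : ℝ := v6 x1 x2 - v121 x1 x2
theorem h196 (h : In b E x1 x2) : Enc S E (t196 b) (v196 x1 x2) := enc_sub (h6 h) (h121 h)

def g0 (b : Bx) : Bool := and (pos (t69 b)) (and (pos (t28 b)) (and (pos (t55 b)) (and (pos (t72 b)) (and (pos (t83 b)) (and (pos (t79 b)) (and (pos (t95 b)) (and (pos (t124 b)) (and (pos (t136 b)) (and (pos (t42 b)) (and (pos (t107 b)) (and (pos (t77 b)) (and (pos (t118 b)) (or (pos (t196 b)) (pos (t177 b)))))))))))))))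

def l0 (b : Bx) : Nat := cond (g0 b) 0 (pickb 1 (t177 b) b)

def P0 (x1 x2 : ℝ) : Prop := 0 < v69 x1 x2 ∧ 0 < v28 x1 x2 ∧ 0 < v55 x1 x2 ∧ 0 < v72 x1 x2 ∧ 0 < v83 x1 x2 ∧ 0 < v79 x1 x2 ∧ 0 < v95 x1 x2 ∧ 0 < v124 x1 x2 ∧ 0 < v136 x1 x2 ∧ 0 < v42 x1 x2 ∧ 0 < v107 x1 x2 ∧ 0 < v77 x1 x2 ∧ 0 < v118 x1 x2 ∧ (0 < v196 x1 x2 ∨ 0 < v177 x1 x2)

theorem l0_sound (h : In b E x1 x2) (e : l0 b = 0) : P0 x1 x2 := by
  have e1 : g0 b = true := by
    rcases e2 : g0 b with _ | _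
    · unfold l0 at e; rw [e2, cond_false] at e; exact absurd e (pickb_ne _ _ _)
    · rfl
  exact ⟨pos_sound hS (h69 h) (Bool.and_eq_true_iff.mp e1).1, ⟨pos_sound hS (h28 h) (Bool.and_eq_true_iff.mp (Bool.and_eq_true_iff.mp e1).2).1, ⟨pos_sound hS (h55 h) (Bool.and_eq_true_iff.mp (Bool.and_eq_true_iff.mp (Bool.and_eq_true_iff.mp e1).2).2).1, ⟨pos_sound hS (h72 h) (Bool.and_eq_true_iff.mp (Bool.and_eq_true_iff.mp (Bool.and_eq_true_iff.mp (Bool.and_eq_true_iff.mp e1).2).2).2).1, ⟨pos_sound hS (h83 h) (Bool.and_eq_true_iff.mp (Bool.and_eq_true_iff.mp (Bool.and_eq_true_iff.mp (Bool.and_eq_true_iff.mp (Bool.and_eq_true_iff.mp e1).2).2).2).2).1, ⟨pos_sound hS (h79 h) (Bool.and_eq_true_iff.mp (Bool.and_eq_true_iff.mp (Bool.and_eq_true_iff.mp (Bool.and_eq_true_iff.mp (Bool.and_eq_true_iff.mp (Bool.and_eq_true_iff.mp e1).2).2).2).2).2).1, ⟨pos_sound hS (h95 h) (Bool.and_eq_true_iff.mp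 (Bool.and_eq_true_iff.mp (Bool.and_eq_true_iff.mp (Bool.and_eq_true_iff.mp (Bool.and_eq_true_iff.mp (Bool.and_eq_true_iff.mp (Bool.and_eq_true_iff.mp e1).2).2).2).2).2).2).1, ⟨pos_sound hS (h124 h) (Bool.and_eq_true_iff.mp (Bool.and_eq_true_iff.mp (Bool.and_eq_true_iff.mp (Bool.and_eq_true_iff.mp (Bool.and_eq_true_iff.mp (Bool.and_eq_true_iff.mp (Bool.and_eq_true_iff.mp (Bool.and_eq_true_iff.mp e1).2).2).2).2).2).2).2).1, ⟨pos_sound hS (h136 h) (Bool.and_eq_true_iff.mp (Bool.and_eq_true_iff.mp (Bool.and_eq_true_iff.mp (Bool.and_eq_true_iff.mp (Bool.and_eq_true_iff.mp (Bool.and_eq_true_iff.mp (Bool.and_eq_true_iff.mp (Bool.and_eq_true_iff.mp (Bool.and_eq_true_iff.mp e1).2).2).2).2).2).2).2).2).1, ⟨pos_sound hS (h42 h) (Bool.and_eq_true_iff.mp (Bool.and_eq_true_iff.mp (Bool.and_eq_true_iff.mp (Bool.and_eq_true_iff.mp (Bool.and_eq_true_iff.mp (Bool.and_eq_true_iff.mp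 (Bool.and_eq_true_iff.mp (Bool.and_eq_true_iff.mp (Bool.and_eq_true_iff.mp (Bool.and_eq_true_iff.mp e1).2).2).2).2).2).2).2).2).2).1, ⟨pos_sound hS (h107 h) (Bool.and_eq_true_iff.mp (Bool.and_eq_true_iff.mp (Bool.and_eq_true_iff.mp (Bool.and_eq_true_iff.mp (Bool.and_eq_true_iff.mp (Bool.and_eq_true_iff.mp (Bool.and_eq_true_iff.mp (Bool.and_eq_true_iff.mp (Bool.and_eq_true_iff.mp (Bool.and_eq_true_iff.mp (Bool.and_eq_true_iff.mp e1).2).2).2).2).2).2).2).2).2).2).1, ⟨pos_sound hS (h77 h) (Bool.and_eq_true_iff.mp (Bool.and_eq_true_iff.mp (Bool.and_eq_true_iff.mp (Bool.and_eq_true_iff.mp (Bool.and_eq_true_iff.mp (Bool.and_eq_true_iff.mp (Bool.and_eq_true_iff.mp (Bool.and_eq_true_iff.mp (Bool.and_eq_true_iff.mp (Bool.and_eq_true_iff.mp (Bool.and_eq_true_iff.mp (Bool.and_eq_true_iff.mp e1).2).2).2).2).2).2).2).2).2).2).2).1, ⟨pos_sound hS (h118 h) (Bool.and_eq_true_iff.mp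 (Bool.and_eq_true_iff.mp (Bool.and_eq_true_iff.mp (Bool.and_eq_true_iff.mp (Bool.and_eq_true_iff.mp (Bool.and_eq_true_iff.mp (Bool.and_eq_true_iff.mp (Bool.and_eq_true_iff.mp (Bool.and_eq_true_iff.mp (Bool.and_eq_true_iff.mp (Bool.and_eq_true_iff.mp (Bool.and_eq_true_iff.mp (Bool.and_eq_true_iff.mp e1).2).2).2).2).2).2).2).2).2).2).2).2).1, ((Bool.or_eq_true_iff.mp (Bool.and_eq_true_iff.mp (Bool.and_eq_true_iff.mp (Bool.and_eq_true_iff.mp (Bool.and_eq_true_iff.mp (Bool.and_eq_true_iff.mp (Bool.and_eq_true_iff.mp (Bool.and_eq_true_iff.mp (Bool.and_eq_true_iff.mp (Bool.and_eq_true_iff.mp (Bool.and_eq_true_iff.mp (Bool.and_eq_true_iff.mp (Bool.and_eq_true_iff.mp (Bool.and_eq_true_iff.mp e1).2).2).2).2).2).2).2).2).2).2).2).2).2).imp (fun a => pos_sound hS (h196 h) a) (fun a => pos_sound hS (h177 h) a))⟩⟩⟩⟩⟩⟩⟩⟩⟩⟩⟩⟩⟩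

def g1 (b : Bx) : Bool := or (pos (t180 b)) (or (pos (t162 b)) (or (pos (t182 b)) (or (pos (t176 b)) (or (pos (t185 b)) (or (pos (t190 b)) (or (pos (t192 b)) (or (pos (t174 b)) (or (pos (t193 b)) (pos (t195 b))))))))))

def l1 (b : Bx) : Nat := cond (g1 b) 0 (l0 b)

def P1 (x1 x2 : ℝ) : Prop := (0 < v180 x1 x2 ∨ 0 < v162 x1 x2 ∨ 0 < v182 x1 x2 ∨ 0 < v176 x1 x2 ∨ 0 < v185 x1 x2 ∨ 0 < v190 x1 x2 ∨ 0 < v192 x1 x2 ∨ 0 < v174 x1 x2 ∨ 0 < v193 x1 x2 ∨ 0 < v195 x1 x2) ∨ (P0 x1 x2)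

theorem l1_sound (h : In b E x1 x2) (e : l1 b = 0) : P1 x1 x2 := by
  unfold l1 at e
  rcases e1 : g1 b with _ | _
  · rw [e1, cond_false] at e
    have z0 : l0 b = 0 := e
    exact Or.inr (l0_sound h z0)
  · exact Or.inl (((Bool.or_eq_true_iff.mp e1).imp (fun a => pos_sound hS (h180 h) a) (fun a => ((Bool.or_eq_true_iff.mp a).imp (fun a => pos_sound hS (h162 h) a) (fun a => ((Bool.or_eq_true_iff.mp a).imp (fun a => pos_sound hS (h182 h) a) (fun a => ((Bool.or_eq_true_iff.mp a).imp (fun a => pos_sound hS (h176 h) a) (fun a => ((Bool.or_eq_true_iff.mp a).imp (fun a => pos_sound hS (h185 h) a) (fun a => ((Bool.or_eq_true_iff.mp a).imp (fun a => pos_sound hS (h190 h) a) (fun a => ((Bool.or_eq_true_iff.mp a).imp (fun a => pos_sound hS (h192 h) a) (fun a => ((Bool.or_eq_true_iff.mp a).imp (fun a => pos_sound hS (h174 h) a) (fun a => ((Bool.or_eq_true_iff.mp a).imp (fun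 a => pos_sound hS (h193 h) a) (fun a => pos_sound hS (h195 h) a)))))))))))))))))))

def f (b : Bx) : Nat := l1 b

/-- the statement -/
def Q (x1 x2 : ℝ) : Prop := P1 x1 x2

theorem f_sound (b : Bx) (hb : f b = 0) (x1 x2 : ℝ) (hm : Mem S b x1 x2) : Q x1 x2 := by
  obtain ⟨E, h⟩ := pt_of_mem hm
  have h : In b E x1 x2 := h
  unfold f at hb
  have e := hb
  have z1 : l1 b = 0 := e
  exact (l1_sound h z1)

/-- the box -/
def b0 : Bx := ⟨232471924, 0, 232471926, 536870912, 0, 536870913⟩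

theorem chk_all {n : ℕ} {b : Bx} (h : chk f n b = true) (x1 x2 : ℝ) (hm : Mem S b x1 x2) : Q x1 x2 :=
  chk_sound (fun b hb x1 x2 hm => f_sound b hb x1 x2 hm) n b h x1 x2 hm


end Pool.Agent.Strip051.LB.ChB00U_pm_102z
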