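import Pool.Agent.Strip051.LB.ChB00U_pm_102z.Defs
import Pool.Agent.Strip051.LB.Slope
import Pool.Agent.Strip051.LB.Star
import Pool.Agent.Strip051.LB.Cf

/-! # LINE tight chart ChB00U_pm_102z: slopes -/

namespace Pool.Agent.Strip051.LB.ChB00U_pm_102z

open Pool.Agent.Strip051.LB Pool.Agent.Strip051.LB.Fn Pool.Agent.Strip051.LB.Fc Pool.Agent.Strip051.LB.Fd Pool.Agent.StripNear

set_option maxRecDepth 100000
set_option linter.all false

noncomputable def v34 (x1 x2 : ℝ) : ℝ := v25 x1 x2 - v9 x1 x2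

noncomputable def v48 (x1 x2 : ℝ) : ℝ := v47 x1 x2 - v6 x1 x2

noncomputable def v50 (x1 x2 : ℝ) : ℝ := -(v6 x1 x2)

noncomputable def v51 (x1 x2 : ℝ) : ℝ := (v25 x1 x2) ^ 2

noncomputable def v53 (x1 x2 : ℝ) : ℝ := -(v52 x1 x2)

noncomputable def v54 (x1 x2 : ℝ) : ℝ := v6 x1 x2 - v51 x1 x2

noncomputable def v58 (x1 x2 : ℝ) : ℝ := -(v57 x1 x2)

noncomputable def v60 (x1 x2 : ℝ) : ℝ := (v59 x1 x2) ^ 2

noncomputable def v65 (x1 x2 : ℝ) : ℝ := (v64 x1 x2) ^ 2

noncomputable def v67 (x1 x2 : ℝ) : ℝ := -(v66 x1 x2)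

noncomputable def v68 (x1 x2 : ℝ) : ℝ := v60 x1 x2 + v65 x1 x2

noncomputable def v70 (x1 x2 : ℝ) : ℝ := v68 x1 x2 - v6 x1 x2

noncomputable def v76 (x1 x2 : ℝ) : ℝ := v73 x1 x2 - v75 x1 x2

noncomputable def v78 (x1 x2 : ℝ) : ℝ := v76 x1 x2 * v77 x1 x2

noncomputable def v81 (x1 x2 : ℝ) : ℝ := v78 x1 x2 * v80 x1 x2

noncomputable def v82 (x1 x2 : ℝ) : ℝ := v6 x1 x2 - v65 x1 x2

noncomputable def v87 (x1 x2 : ℝ) : ℝ := -(v2 x1 x2)

noncomputable def v99 (x1 x2 : ℝ) : ℝ := -(v98 x1 x2)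

noncomputable def v100 (x1 x2 : ℝ) : ℝ := v91 x1 x2 * v96 x1 x2

noncomputable def v137 (x1 x2 : ℝ) : ℝ := v71 x1 x2 - v73 x1 x2

noncomputable def v138 (x1 x2 : ℝ) : ℝ := v137 x1 x2 * v134 x1 x2

noncomputable def v139 (x1 x2 : ℝ) : ℝ := v81 x1 x2 + v138 x1 x2

noncomputable def v140 (x1 x2 : ℝ) : ℝ := -(v139 x1 x2)

noncomputable def v141 (x1 x2 : ℝ) : ℝ := -(v100 x1 x2)

noncomputable def v145 (x1 x2 : ℝ) : ℝ := -(v144 x1 x2)

noncomputable def v153 (x1 x2 : ℝ) : ℝ := v12 x1 x2 * v25 x1 x2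

noncomputable def v154 (x1 x2 : ℝ) : ℝ := -(v12 x1 x2)

noncomputable def v155 (x1 x2 : ℝ) : ℝ := v30 x1 x2 * v5 x1 x2

noncomputable def v157 (x1 x2 : ℝ) : ℝ := v153 x1 x2 + v155 x1 x2

noncomputable def v159 (x1 x2 : ℝ) : ℝ := v157 x1 x2 * v150 x1 x2

noncomputable def v161 (x1 x2 : ℝ) : ℝ := v159 x1 x2 - v14 x1 x2

noncomputable def v165 (x1 x2 : ℝ) : ℝ := v25 x1 x2 - v3 x1 x2

structure Cx (x1 x2 : ℝ) : Prop where
  hc : v12 x1 x2 ^ 2 + v5 x1 x2 ^ 2 = 1
  p28 : 0 < v28 x1 x2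
  p55 : 0 < v55 x1 x2
  p72 : 0 < v72 x1 x2
  p83 : 0 < v83 x1 x2
  p79 : 0 < v79 x1 x2
  p95 : 0 < v95 x1 x2
  p124 : 0 < v124 x1 x2
  p136 : 0 < v136 x1 x2
  p42 : 0 < v42 x1 x2
  p107 : 0 < v107 x1 x2
  p77 : 0 < v77 x1 x2
  p118 : 0 < v118 x1 x2

variable {x1 x2 : ℝ}

theorem s3q (x1 x2 : ℝ) : v2 x1 x2 ^ 2 = 3 := by
  rw [v2]; exact s3sq

theorem s3ne (x1 x2 : ℝ) : v2 x1 x2 ≠ 0 := by
  rw [v2]; positivity

theorem s9 (c : Cx x1 x2) : v9 x1 x2 = v25 x1 x2 + v34 x1 x2 * v50 x1 x2 := by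
  simp only [v6, v34, v50]
  (try push_cast)
  ring

theorem s27 (c : Cx x1 x2) : v27 x1 x2 = v51 x1 x2 + v34 x1 x2 * v53 x1 x2 := by
  have a0 : (v9 x1 x2 + v25 x1 x2) * v9 x1 x2 = (v9 x1 x2 + v25 x1 x2) * (v25 x1 x2 + v34 x1 x2 * v50 x1 x2) := congrArg (fun z => (v9 x1 x2 + v25 x1 x2) * z) (s9 c)
  try simp only [v2, v3, v5, v6, v9, v20, v25, v27, v34, v50, v51, v52, v53] at a0
  simp only [v2, v3, v5, v6, v9, v20, v25, v27, v34, v50, v51, v52, v53]
  (try push_cast at a0 ⊢)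
  first | linear_combination a0 | ring | grind

theorem s28 (c : Cx x1 x2) : v28 x1 x2 = v54 x1 x2 + v34 x1 x2 * v52 x1 x2 := by
  have a1 := s27 c
  try simp only [v2, v3, v5, v6, v9, v20, v25, v28, v34, v52, v53, v54] at a1
  simp only [v2, v3, v5, v6, v9, v20, v25, v28, v34, v52, v53, v54]
  (try push_cast at a1 ⊢)
  first | linear_combination -a1 | ring | grind

theorem q29 (c : Cx x1 x2) : v54 x1 x2 = v30 x1 x2 ^ 2 := by
  have hc := c.hc
  have h3 := s3q x1 x2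
  simp only [v3, v6, v16, v18, v20, v22, v25, v30, v51, v54] at hc ⊢
  push_cast at hc ⊢
  grind

theorem s29 (c : Cx x1 x2) : v29 x1 x2 = v30 x1 x2 + v34 x1 x2 * v57 x1 x2 := by
  have a0 := s28 c
  have e : 0 < Real.sqrt (v28 x1 x2) + v30 x1 x2 := by
    have e := c.p55
    simp only [v6, v16, v28, v29, v30, v55] at e ⊢
    push_cast at e ⊢
    linarith
  have b := sl_sqrt a0 (q29 c) (le_of_lt c.p28) e
  clear a0
  try simp only [v2, v3, v5, v6, v9, v16, v20, v25, v28, v29, v30, v34, v52, v54, v55, v56, v57] at b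
  simp only [v2, v3, v5, v6, v9, v16, v20, v25, v28, v29, v30, v34, v52, v54, v55, v56, v57]
  (try push_cast at b ⊢)
  first | linear_combination b | ring | grind

theorem s31 (c : Cx x1 x2) : v31 x1 x2 = v24 x1 x2 + v34 x1 x2 * v58 x1 x2 := by
  have a0 := s29 c
  try simp only [v2, v3, v5, v9, v16, v20, v24, v25, v30, v31, v34, v58] at a0
  simp only [v2, v3, v5, v9, v16, v20, v24, v25, v30, v31, v34, v58]
  (try push_cast at a0 ⊢)
  first | linear_combination -a0 | ring | grind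

theorem s32 (c : Cx x1 x2) : v32 x1 x2 = v59 x1 x2 + v34 x1 x2 * v58 x1 x2 := by
  have a0 := s31 c
  try simp only [v2, v3, v5, v9, v16, v20, v24, v25, v31, v32, v34, v58, v59] at a0
  simp only [v2, v3, v5, v9, v16, v20, v24, v25, v31, v32, v34, v58, v59]
  (try push_cast at a0 ⊢)
  first | linear_combination a0 | ring | grind

theorem s33 (c : Cx x1 x2) : v33 x1 x2 = v64 x1 x2 + v34 x1 x2 * v50 x1 x2 := by
  have a0 := s9 c
  try simp only [v2, v3, v5, v6, v9, v20, v25, v33, v34, v50, v64] at a0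
  simp only [v2, v3, v5, v6, v9, v20, v25, v33, v34, v50, v64]
  (try push_cast at a0 ⊢)
  first | linear_combination a0 | ring | grind

theorem s45 (c : Cx x1 x2) : v45 x1 x2 = v60 x1 x2 + v34 x1 x2 * v63 x1 x2 := by
  have a0 : (v32 x1 x2 + v59 x1 x2) * v32 x1 x2 = (v32 x1 x2 + v59 x1 x2) * (v59 x1 x2 + v34 x1 x2 * v58 x1 x2) := congrArg (fun z => (v32 x1 x2 + v59 x1 x2) * z) (s32 c)
  try simp only [v2, v3, v5, v9, v16, v20, v24, v25, v31, v32, v34, v45, v58, v59, v60, v61, v62, v63] at a0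
  simp only [v2, v3, v5, v9, v16, v20, v24, v25, v31, v32, v34, v45, v58, v59, v60, v61, v62, v63]
  (try push_cast at a0 ⊢)
  first | linear_combination a0 | ring | grind

theorem s46 (c : Cx x1 x2) : v46 x1 x2 = v65 x1 x2 + v34 x1 x2 * v67 x1 x2 := by
  have a0 : (v33 x1 x2 + v64 x1 x2) * v33 x1 x2 = (v33 x1 x2 + v64 x1 x2) * (v64 x1 x2 + v34 x1 x2 * v50 x1 x2) := congrArg (fun z => (v33 x1 x2 + v64 x1 x2) * z) (s33 c)
  try simp only [v2, v3, v5, v6, v9, v20, v25, v33, v34, v46, v50, v64, v65, v66, v67] at a0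
  simp only [v2, v3, v5, v6, v9, v20, v25, v33, v34, v46, v50, v64, v65, v66, v67]
  (try push_cast at a0 ⊢)
  first | linear_combination a0 | ring | grind

theorem s47 (c : Cx x1 x2) : v47 x1 x2 = v68 x1 x2 + v34 x1 x2 * v69 x1 x2 := by
  have a0 := s45 c
  have a1 := s46 c
  try simp only [v2, v3, v5, v9, v20, v25, v33, v34, v47, v63, v64, v66, v67, v68, v69] at a0
  try simp only [v2, v3, v5, v9, v20, v25, v33, v34, v47, v63, v64, v66, v67, v68, v69] at a1
  simp only [v2, v3, v5, v9, v20, v25, v33, v34, v47, v63, v64, v66, v67, v68, v69]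
  (try push_cast at a0 a1 ⊢)
  first | linear_combination a0 + a1 | ring | grind

theorem s48 (c : Cx x1 x2) : v48 x1 x2 = v70 x1 x2 + v34 x1 x2 * v69 x1 x2 := by
  have a0 := s47 c
  try simp only [v2, v3, v5, v6, v9, v20, v25, v33, v34, v47, v48, v63, v64, v66, v68, v69, v70] at a0
  simp only [v2, v3, v5, v6, v9, v20, v25, v33, v34, v47, v48, v63, v64, v66, v68, v69, v70]
  (try push_cast at a0 ⊢)
  first | linear_combination a0 | ring | grind

theorem s72 (c : Cx x1 x2) : v72 x1 x2 = v82 x1 x2 + v34 x1 x2 * v66 x1 x2 := by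
  have a1 := s46 c
  try simp only [v2, v3, v5, v6, v9, v20, v25, v33, v34, v64, v66, v67, v72, v82] at a1
  simp only [v2, v3, v5, v6, v9, v20, v25, v33, v34, v64, v66, v67, v72, v82]
  (try push_cast at a1 ⊢)
  first | linear_combination -a1 | ring | grind

theorem q73 (c : Cx x1 x2) : v82 x1 x2 = v74 x1 x2 ^ 2 := by
  have hc := c.hc
  have h3 := s3q x1 x2
  simp only [v3, v6, v16, v18, v20, v22, v25, v64, v65, v74, v82] at hc ⊢
  push_cast at hc ⊢
  grind

theorem s73 (c : Cx x1 x2) : v73 x1 x2 = v74 x1 x2 + v34 x1 x2 * v85 x1 x2 := by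
  have a0 := s72 c
  have e : 0 < Real.sqrt (v72 x1 x2) + v74 x1 x2 := by
    have e := c.p83
    simp only [v6, v16, v72, v73, v74, v83] at e ⊢
    push_cast at e ⊢
    linarith
  have b := sl_sqrt a0 (q73 c) (le_of_lt c.p72) e
  clear a0
  try simp only [v2, v3, v5, v6, v9, v16, v20, v25, v33, v34, v64, v66, v72, v73, v74, v82, v83, v84, v85] at b
  simp only [v2, v3, v5, v6, v9, v16, v20, v25, v33, v34, v64, v66, v72, v73, v74, v82, v83, v84, v85]
  (try push_cast at b ⊢)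
  first | linear_combination b | ring | grind

theorem s75 (c : Cx x1 x2) : v75 x1 x2 = v86 x1 x2 + v34 x1 x2 * v87 x1 x2 := by
  have a1 : (v2 x1 x2) * v33 x1 x2 = (v2 x1 x2) * (v64 x1 x2 + v34 x1 x2 * v50 x1 x2) := congrArg (fun z => (v2 x1 x2) * z) (s33 c)
  try simp only [v2, v3, v5, v6, v9, v20, v25, v33, v34, v50, v64, v75, v86, v87] at a1
  simp only [v2, v3, v5, v6, v9, v20, v25, v33, v34, v50, v64, v75, v86, v87]
  (try push_cast at a1 ⊢)
  first | linear_combination a1 | ring | grind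

theorem s76 (c : Cx x1 x2) : v76 x1 x2 = v88 x1 x2 + v34 x1 x2 * v89 x1 x2 := by
  have a0 := s73 c
  have a1 := s75 c
  try simp only [v2, v3, v5, v9, v16, v20, v25, v34, v74, v76, v87, v88, v89] at a0
  try simp only [v2, v3, v5, v9, v16, v20, v25, v34, v74, v76, v87, v88, v89] at a1
  simp only [v2, v3, v5, v9, v16, v20, v25, v34, v74, v76, v87, v88, v89]
  (try push_cast at a0 a1 ⊢)
  first | linear_combination a0 - a1 | ring | grind

theorem s77 (c : Cx x1 x2) : v77 x1 x2 = v90 x1 x2 + v34 x1 x2 * v85 x1 x2 := by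
  have a1 := s73 c
  try simp only [v2, v3, v5, v6, v9, v16, v20, v25, v34, v74, v77, v90] at a1
  simp only [v2, v3, v5, v6, v9, v16, v20, v25, v34, v74, v77, v90]
  (try push_cast at a1 ⊢)
  first | linear_combination a1 | ring | grind

theorem s78 (c : Cx x1 x2) : v78 x1 x2 = v91 x1 x2 + v34 x1 x2 * v94 x1 x2 := by
  have a0 : (v77 x1 x2) * v76 x1 x2 = (v77 x1 x2) * (v88 x1 x2 + v34 x1 x2 * v89 x1 x2) := congrArg (fun z => (v77 x1 x2) * z) (s76 c)
  have a1 : (v88 x1 x2) * v77 x1 x2 = (v88 x1 x2) * (v90 x1 x2 + v34 x1 x2 * v85 x1 x2) := congrArg (fun z => (v88 x1 x2) * z) (s77 c)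
  try simp only [v2, v3, v5, v6, v9, v16, v20, v25, v34, v74, v76, v77, v78, v88, v89, v90, v91, v92, v93, v94] at a0
  try simp only [v2, v3, v5, v6, v9, v16, v20, v25, v34, v74, v76, v77, v78, v88, v89, v90, v91, v92, v93, v94] at a1
  simp only [v2, v3, v5, v6, v9, v16, v20, v25, v34, v74, v76, v77, v78, v88, v89, v90, v91, v92, v93, v94]
  (try push_cast at a0 a1 ⊢)
  first | linear_combination a0 + a1 | ring | grind

theorem s79 (c : Cx x1 x2) : v79 x1 x2 = v95 x1 x2 + v34 x1 x2 * v89 x1 x2 := by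
  have a0 := s77 c
  have a1 := s75 c
  try simp only [v2, v3, v5, v6, v9, v16, v20, v25, v34, v74, v77, v79, v87, v89, v90, v95] at a0
  try simp only [v2, v3, v5, v6, v9, v16, v20, v25, v34, v74, v77, v79, v87, v89, v90, v95] at a1
  simp only [v2, v3, v5, v6, v9, v16, v20, v25, v34, v74, v77, v79, v87, v89, v90, v95]
  (try push_cast at a0 a1 ⊢)
  first | linear_combination a0 - a1 | ring | grind

theorem s80 (c : Cx x1 x2) : v80 x1 x2 = v96 x1 x2 + v34 x1 x2 * v99 x1 x2 := by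
  have a0 := s79 c
  have b := sl_inv a0 (c.p79).ne' (c.p95).ne'
  clear a0
  try simp only [v2, v3, v5, v6, v9, v16, v20, v25, v34, v74, v77, v79, v80, v89, v90, v95, v96, v97, v98, v99] at b
  simp only [v2, v3, v5, v6, v9, v16, v20, v25, v34, v74, v77, v79, v80, v89, v90, v95, v96, v97, v98, v99]
  (try push_cast at b ⊢)
  first | linear_combination b | ring | grind

theorem s81 (c : Cx x1 x2) : v81 x1 x2 = v100 x1 x2 + v34 x1 x2 * v104 x1 x2 := by
  have a0 : (v80 x1 x2) * v78 x1 x2 = (v80 x1 x2) * (v91 x1 x2 + v34 x1 x2 * v94 x1 x2) := congrArg (fun z => (v80 x1 x2) * z) (s78 c)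
  have a1 : (v91 x1 x2) * v80 x1 x2 = (v91 x1 x2) * (v96 x1 x2 + v34 x1 x2 * v99 x1 x2) := congrArg (fun z => (v91 x1 x2) * z) (s80 c)
  try simp only [v2, v3, v5, v9, v20, v25, v34, v81, v94, v99, v100, v101, v102, v104] at a0
  try simp only [v2, v3, v5, v9, v20, v25, v34, v81, v94, v99, v100, v101, v102, v104] at a1
  simp only [v2, v3, v5, v9, v20, v25, v34, v81, v94, v99, v100, v101, v102, v104]
  (try push_cast at a0 a1 ⊢)
  first | linear_combination a0 + a1 | ring | grind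

theorem s146 (c : Cx x1 x2) : v146 x1 x2 = v153 x1 x2 + v34 x1 x2 * v154 x1 x2 := by
  have a1 : (v12 x1 x2) * v9 x1 x2 = (v12 x1 x2) * (v25 x1 x2 + v34 x1 x2 * v50 x1 x2) := congrArg (fun z => (v12 x1 x2) * z) (s9 c)
  try simp only [v2, v3, v5, v6, v9, v20, v25, v34, v50, v146, v153, v154] at a1
  simp only [v2, v3, v5, v6, v9, v20, v25, v34, v50, v146, v153, v154]
  (try push_cast at a1 ⊢)
  first | linear_combination a1 | ring | grind

theorem s147 (c : Cx x1 x2) : v147 x1 x2 = v155 x1 x2 + v34 x1 x2 * v156 x1 x2 := by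
  have a0 : (v5 x1 x2) * v29 x1 x2 = (v5 x1 x2) * (v30 x1 x2 + v34 x1 x2 * v57 x1 x2) := congrArg (fun z => (v5 x1 x2) * z) (s29 c)
  try simp only [v2, v3, v5, v9, v16, v20, v25, v30, v34, v147, v155, v156] at a0
  simp only [v2, v3, v5, v9, v16, v20, v25, v30, v34, v147, v155, v156]
  (try push_cast at a0 ⊢)
  first | linear_combination a0 | ring | grind

theorem s149 (c : Cx x1 x2) : v149 x1 x2 = v157 x1 x2 + v34 x1 x2 * v158 x1 x2 := by
  have a0 := s146 c
  have a1 := s147 c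
  try simp only [v2, v3, v5, v9, v20, v25, v34, v149, v154, v157, v158] at a0
  try simp only [v2, v3, v5, v9, v20, v25, v34, v149, v154, v157, v158] at a1
  simp only [v2, v3, v5, v9, v20, v25, v34, v149, v154, v157, v158]
  (try push_cast at a0 a1 ⊢)
  first | linear_combination a0 + a1 | ring | grind

theorem s151 (c : Cx x1 x2) : v151 x1 x2 = v159 x1 x2 + v34 x1 x2 * v160 x1 x2 := by
  have a0 : (v150 x1 x2) * v149 x1 x2 = (v150 x1 x2) * (v157 x1 x2 + v34 x1 x2 * v158 x1 x2) := congrArg (fun z => (v150 x1 x2) * z) (s149 c)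
  try simp only [v2, v3, v5, v9, v20, v25, v34, v149, v151, v157, v158, v159, v160] at a0
  simp only [v2, v3, v5, v9, v20, v25, v34, v149, v151, v157, v158, v159, v160]
  (try push_cast at a0 ⊢)
  first | linear_combination a0 | ring | grind

theorem s152 (c : Cx x1 x2) : v152 x1 x2 = v161 x1 x2 + v34 x1 x2 * v160 x1 x2 := by
  have a0 := s151 c
  try simp only [v2, v3, v5, v9, v14, v20, v25, v34, v152, v161] at a0
  simp only [v2, v3, v5, v9, v14, v20, v25, v34, v152, v161]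
  (try push_cast at a0 ⊢)
  first | linear_combination a0 | ring | grind

theorem s163 (c : Cx x1 x2) : v163 x1 x2 = v165 x1 x2 + v34 x1 x2 * v50 x1 x2 := by
  have a0 := s9 c
  try simp only [v2, v3, v5, v6, v9, v20, v25, v34, v50, v163, v165] at a0
  simp only [v2, v3, v5, v6, v9, v20, v25, v34, v50, v163, v165]
  (try push_cast at a0 ⊢)
  first | linear_combination a0 | ring | grind

theorem bD (c : Cx x1 x2) : v70 x1 x2 = 0 := by
  have hc := c.hc
  have h3 := s3q x1 x2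
  simp only [v3, v6, v16, v18, v20, v22, v24, v25, v59, v60, v64, v65, v68, v70] at hc ⊢
  push_cast at hc ⊢
  grind

theorem sD (c : Cx x1 x2) : v48 x1 x2 = v34 x1 x2 * v69 x1 x2 := by
  have h := s48 c
  rw [bD c, zero_add] at h
  exact h

theorem hx (c : Cx x1 x2) : v71 x1 x2 - v73 x1 x2 = v48 x1 x2 * (v124 x1 x2)⁻¹ := by
  have hs := c.p124
  have hc : v73 x1 x2 ^ 2 = v72 x1 x2 := by
    rw [v73]; exact Real.sq_sqrt (le_of_lt c.p72)
  have g : v71 x1 x2 ^ 2 - v73 x1 x2 ^ 2 = v48 x1 x2 := by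
    rw [hc]; simp only [v2, v3, v5, v6, v9, v31, v32, v33, v45, v46, v47, v48, v71, v72, v124]; push_cast; ring
  have g3 : v124 x1 x2 = v71 x1 x2 + v73 x1 x2 := by
    simp only [v2, v3, v5, v6, v9, v31, v32, v33, v45, v46, v47, v48, v71, v72, v124]; try push_cast
    try ring
  have g2 : 0 < v71 x1 x2 + v73 x1 x2 := by rw [← g3]; exact hs
  rw [g3]; exact diff_of_sq g g2

theorem s140 (c : Cx x1 x2) : v140 x1 x2 = v141 x1 x2 + v34 x1 x2 * v145 x1 x2 := by
  have hA := s81 c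
  have hd := sD c
  have hs := c.p124
  have hc : v73 x1 x2 ^ 2 = v72 x1 x2 := by
    rw [v73]; exact Real.sq_sqrt (le_of_lt c.p72)
  have hx := hx c
  have hy : v134 x1 x2 * (v71 x1 x2 - v73 x1 x2) = v134 x1 x2 * (v48 x1 x2 * (v124 x1 x2)⁻¹) := congrArg (fun z => v134 x1 x2 * z) hx
  have hK : v134 x1 x2 * (v124 x1 x2)⁻¹ * v48 x1 x2 = v134 x1 x2 * (v124 x1 x2)⁻¹ * (v34 x1 x2 * v69 x1 x2) := congrArg (fun z => v134 x1 x2 * (v124 x1 x2)⁻¹ * z) hd
  try simp only [v2, v3, v5, v6, v9, v20, v25, v33, v34, v47, v48, v63, v64, v66, v69, v71, v104, v124, v125, v137, v138, v139, v140, v141, v142, v143, v144, v145] at hA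
  try simp only [v2, v3, v5, v6, v9, v20, v25, v33, v34, v47, v48, v63, v64, v66, v69, v71, v104, v124, v125, v137, v138, v139, v140, v141, v142, v143, v144, v145] at hy
  try simp only [v2, v3, v5, v6, v9, v20, v25, v33, v34, v47, v48, v63, v64, v66, v69, v71, v104, v124, v125, v137, v138, v139, v140, v141, v142, v143, v144, v145] at hK
  simp only [v2, v3, v5, v6, v9, v20, v25, v33, v34, v47, v48, v63, v64, v66, v69, v71, v104, v124, v125, v137, v138, v139, v140, v141, v142, v143, v144, v145]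
  (try push_cast at hA hy hK ⊢)
  first | linear_combination -(hA + hy + hK) | grind

theorem bE (c : Cx x1 x2) : v161 x1 x2 = 0 := by
  have hc := c.hc
  have h3 := s3q x1 x2
  have g0 : v2 x1 x2 ≠ 0 := s3ne x1 x2
  simp only [v3, v14, v16, v18, v20, v22, v25, v30, v150, v153, v155, v157, v159, v161] at hc ⊢
  push_cast at hc ⊢
  grind

theorem hE (c : Cx x1 x2) : v152 x1 x2 = v34 x1 x2 * v160 x1 x2 := by
  have h := s152 c
  rw [bE c, zero_add] at h
  exact h

theorem bS (c : Cx x1 x2) : v24 x1 x2 - v44 x1 x2 - v141 x1 x2 = 0 := by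
  have hc := c.hc
  have h3 := s3q x1 x2
  have g0 := (c.p42).ne'
  have g1 := (c.p95).ne'
  simp only [v3, v6, v16, v18, v20, v22, v24, v25, v35, v36, v37, v38, v39, v40, v41, v42, v43, v44, v64, v74, v86, v88, v90, v91, v95, v96, v100, v141] at hc g0 g1 ⊢
  push_cast at hc g0 g1 ⊢
  grind

theorem hS (c : Cx x1 x2) : v31 x1 x2 - v44 x1 x2 - v140 x1 x2 = v34 x1 x2 * v164 x1 x2 := by
  have a3 := s31 c
  have a2 := s140 c
  have b := bS c
  try simp only [v2, v3, v5, v9, v16, v20, v24, v25, v31, v34, v58, v104, v139, v140, v141, v144, v145, v164] at a3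
  try simp only [v2, v3, v5, v9, v16, v20, v24, v25, v31, v34, v58, v104, v139, v140, v141, v144, v145, v164] at a2
  try simp only [v2, v3, v5, v9, v16, v20, v24, v25, v31, v34, v58, v104, v139, v140, v141, v144, v145, v164] at b
  try simp only [v2, v3, v5, v9, v16, v20, v24, v25, v31, v34, v58, v104, v139, v140, v141, v144, v145, v164]
  (try push_cast at a3 a2 b ⊢)
  first | linear_combination a3 - a2 + b | grind

theorem bC (c : Cx x1 x2) : v162 x1 x2 * v24 x1 x2 - v165 x1 x2 * v44 x1 x2 = 0 := by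
  have hc := c.hc
  have h3 := s3q x1 x2
  have g0 := (c.p42).ne'
  simp only [v3, v6, v16, v18, v20, v22, v24, v25, v35, v36, v37, v38, v39, v40, v41, v42, v43, v44, v162, v165] at hc g0 ⊢
  push_cast at hc g0 ⊢
  grind

theorem hC (c : Cx x1 x2) : v162 x1 x2 * v31 x1 x2 - v163 x1 x2 * v44 x1 x2 = v34 x1 x2 * v169 x1 x2 := by
  have a2 : v162 x1 x2 * v31 x1 x2 = v162 x1 x2 * (v24 x1 x2 + v34 x1 x2 * v58 x1 x2) := congrArg (fun z => v162 x1 x2 * z) (s31 c)
  have a3 : v44 x1 x2 * v163 x1 x2 = v44 x1 x2 * (v165 x1 x2 + v34 x1 x2 * v50 x1 x2) := congrArg (fun z => v44 x1 x2 * z) (s163 c)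
  have b := bC c
  try simp only [v2, v3, v5, v6, v9, v16, v20, v24, v25, v31, v34, v50, v58, v162, v163, v165, v166, v169] at a2
  try simp only [v2, v3, v5, v6, v9, v16, v20, v24, v25, v31, v34, v50, v58, v162, v163, v165, v166, v169] at a3
  try simp only [v2, v3, v5, v6, v9, v16, v20, v24, v25, v31, v34, v50, v58, v162, v163, v165, v166, v169] at b
  simp only [v2, v3, v5, v6, v9, v16, v20, v24, v25, v31, v34, v50, v58, v162, v163, v165, v166, v169]
  (try push_cast at a2 a3 b ⊢)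
  first | linear_combination a2 - a3 + b | grind

theorem hT (x1 x2 : ℝ) : v163 x1 x2 = v162 x1 x2 + v33 x1 x2 := by
  simp only [v2, v3, v5, v9, v33, v162, v163]
  push_cast
  ring

theorem hG (c : Cx x1 x2) : v163 x1 x2 * (-v44 x1 x2) - (-v162 x1 x2) * v31 x1 x2 = v34 x1 x2 * v169 x1 x2 := by
  have b := hC c
  try simp only [v2, v3, v5, v9, v20, v25, v31, v33, v34, v104, v139, v140, v144, v162, v163, v164, v169] at b
  try simp only [v2, v3, v5, v9, v20, v25, v31, v33, v34, v104, v139, v140, v144, v162, v163, v164, v169]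
  (try push_cast at b ⊢)
  first | linear_combination b | grind

theorem core (c : Cx x1 x2) (hW : 0 ≤ v34 x1 x2) (hWQ : 0 ≤ v34 x1 x2 * v177 x1 x2) (h1 : 0 ≤ (-v162 x1 x2)) (h2 : 0 ≤ v163 x1 x2) (h3 : (-v162 x1 x2) + v163 x1 x2 ≤ Pool.Agent.StripNear.h0) :
    0 ≤ starn_v (v152 x1 x2) ((-v162 x1 x2)) (v163 x1 x2) ((-v44 x1 x2)) (v31 x1 x2) (v140 x1 x2) := by
  have hD : (-v44 x1 x2) + v31 x1 x2 - v140 x1 x2 = v34 x1 x2 * v164 x1 x2 := by
    have b := hS c
    linear_combination b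
  have k := starn_ge hW h1 h2 h3 (hE c) hD (hG c)
  have f0 : (-v162 x1 x2) = v175 x1 x2 := by
    simp only [v2, v3, v5, v9, v162, v163, v175]
    try (push_cast; ring)
  refine le_trans hWQ (le_trans (le_of_eq ?_) k)
  rw [v177]
  rw [f0]

end Pool.Agent.Strip051.LB.ChB00U_pm_102z
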